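import Mathlib
import Pool.Agent.H455Z.W11

set_option autoImplicit false

open MeasureTheory Pool.Agent.H455Z.W

namespace Pool.Agent.Results.MP_9d9c13_pr.WishartProduct

/-- Product inequality for the determinants of the diagonal blocks of a Wishart matrix. The index
set `Fin p` is split into `d` blocks by an arbitrary map `blk` (consecutive blocks are a special
case), and `X.toSquareBlock blk i` is the `i`-th diagonal block. The law is a probability measure,
all expectations exist, and the expectation of the product is at least the product of the
expectations. -/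
theorem result (p d : ℕ) (blk : Fin p → Fin d) (α : ℝ) (hα : (p : ℝ) - 1 < α)
    (S : Matrix (Fin p) (Fin p) ℝ) (hS : S.PosDef) (ν : Fin d → ℝ) (hν : ∀ i, 0 ≤ ν i) :
    IsProbabilityMeasure (wishart α S) ∧
      (∀ i, Integrable (fun x => ((symMat x).toSquareBlock blk i).det ^ ν i) (wishart α S)) ∧
      Integrable (fun x => ∏ i, ((symMat x).toSquareBlock blk i).det ^ ν i) (wishart α S) ∧
      ∏ i, ∫ x, ((symMat x).toSquareBlock blk i).det ^ ν i ∂(wishart α S) ≤
        ∫ x, ∏ i, ((symMat x).toSquareBlock blk i).det ^ ν i ∂(wishart α S) :=
  wishart_ineq blk (by rwa [Fintype.card_fin]) hS ν hν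

end Pool.Agent.Results.MP_9d9c13_pr.WishartProduct
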